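import Pool.Agent.Y33.RN.Stm

/-!
# Job RN-RB1: explicit small cancellation relators
-/

set_option autoImplicit false

namespace Pool.Agent.Y893.RN

open Pool.Agent.TH54.BU Pool.Agent.Y33.SM Pool.Agent.H17R2 Pool.Agent.Y33.RN

/-- length of the blocks -/
def M (K : ℤ) : ℤ := 32 * K + 10

/-- number of the blocks -/
def J (K : ℤ) : ℤ := 4 * K

/-- length of the relators -/
def Lt (K : ℤ) : ℤ := J K * M K

/-- the code of a relator -/
def cd (p : Fin 4 × Bool) : ℤ := 2 * ((p.1 : ℕ) : ℤ) + (if p.2 then 1 else 0)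

/-- the exponents -/
def xx (p : Fin 4 × Bool) (j : ℤ) : ℤ := 2 + cd p + 8 * j

/-- the letter of the block `j` at the position `r` -/
def f (K : ℤ) (p : Fin 4 × Bool) (j r : ℤ) : Fin 5 × Bool :=
  if j = 0 ∧ r = 0 then (0, p.2)
  else if j = 0 ∧ r = 1 then (p.1.succ, true)
  else if j = 0 ∧ r = 2 then (0, !p.2)
  else if r < M K - xx p j then (3, true)
  else (4, true)

/-- the periodic words -/
def wd (K : ℤ) (p : Fin 4 × Bool) (k : ℤ) : Fin 5 × Bool := f K p ((k / M K) % J K) (k % M K)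

lemma cd_nonneg (p : Fin 4 × Bool) : 0 ≤ cd p := by
  unfold cd; split <;> omega

lemma cd_lt (p : Fin 4 × Bool) : cd p < 8 := by
  have := p.1.2
  unfold cd; split <;> omega

lemma cd_inj {p p' : Fin 4 × Bool} (h : cd p = cd p') : p = p' := by
  obtain ⟨a, e⟩ := p
  obtain ⟨a', e'⟩ := p'
  unfold cd at h
  cases e <;> cases e' <;> simp at h ⊢ <;> omega

section

variable {K : ℤ}

lemma wd_at (p : Fin 4 × Bool) (q r : ℤ) (h0 : 0 ≤ r) (h1 : r < M K) :
    wd K p (q * M K + r) = f K p (q % J K) r := by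
  have hM : 0 < M K := by omega
  unfold wd
  have e1 : (q * M K + r) / M K = q := by
    rw [add_comm, Int.add_mul_ediv_right _ _ hM.ne', Int.ediv_eq_zero_of_lt h0 h1, zero_add]
  have e2 : (q * M K + r) % M K = r := by
    rw [add_comm, Int.add_mul_emod_self_right, Int.emod_eq_of_lt h0 h1]
  rw [e1, e2]

lemma xx_lt (hK : 20 ≤ K) (p : Fin 4 × Bool) (j : ℤ) (h0 : 0 ≤ j) (h1 : j < J K) :
    2 ≤ xx p j ∧ xx p j + 4 ≤ M K := by
  have := cd_nonneg p
  have := cd_lt p
  unfold xx M
  unfold J at h1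
  constructor <;> omega

lemma f_four (hK : 20 ≤ K) (p : Fin 4 × Bool) (j r : ℤ) (h0 : 0 ≤ j) (h1 : j < J K)
    (h : M K - xx p j ≤ r) : f K p j r = (4, true) := by
  have := xx_lt hK p j h0 h1
  unfold f
  rw [if_neg (by omega), if_neg (by omega), if_neg (by omega), if_neg (by omega)]

lemma f_three (hK : 20 ≤ K) (p : Fin 4 × Bool) (j r : ℤ) (h0 : 0 ≤ j) (h1 : j < J K)
    (h : r < M K - xx p j) (h3 : 3 ≤ r ∨ j ≠ 0) : f K p j r = (3, true) := by
  have := xx_lt hK p j h0 h1
  unfold f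
  rw [if_neg (by omega), if_neg (by omega), if_neg (by omega), if_pos h]

lemma f_zero (K : ℤ) (p : Fin 4 × Bool) : f K p 0 0 = (0, p.2) := by simp [f]

lemma f_one (K : ℤ) (p : Fin 4 × Bool) : f K p 0 1 = (p.1.succ, true) := by simp [f]

lemma f_two (K : ℤ) (p : Fin 4 × Bool) : f K p 0 2 = (0, !p.2) := by simp [f]

/-- the four cases for a letter -/
lemma f_cases (p : Fin 4 × Bool) (j r : ℤ) (hr : 0 ≤ r) :
    (j = 0 ∧ r = 0) ∨ (j = 0 ∧ r = 1) ∨ (j = 0 ∧ r = 2) ∨ (r < M K - xx p j ∧ (3 ≤ r ∨ j ≠ 0)) ∨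
      M K - xx p j ≤ r := by
  omega

/-- the letter at the beginning of a block is not `4` -/
lemma f_start (hK : 20 ≤ K) (p : Fin 4 × Bool) (j : ℤ) (h0 : 0 ≤ j) (h1 : j < J K) :
    (f K p j 0).1 ≠ 4 := by
  have := xx_lt hK p j h0 h1
  by_cases hj : j = 0
  · subst hj
    rw [f_zero]; simp
  · rw [f_three hK p j 0 h0 h1 (by omega) (Or.inr hj)]
    simp

lemma window (hK : 20 ≤ K) (p p' : Fin 4 × Bool) (s s' : ℤ) (t : ℕ) (ht : 4 * M K ≤ t)
    (h : ∀ k : ℕ, k < t → (wd K p (s + k)).1 = (wd K p' (s' + k)).1) :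
    p = p' ∧ ∃ m : ℤ, s = s' + m * Lt K := by
  have hM : 0 < M K := by unfold M; omega
  have hJ : 0 < J K := by unfold J; omega
  have hh : ∀ z : ℤ, s ≤ z → z < s + t → (wd K p z).1 = (wd K p' (z - s + s')).1 := by
    intro z h1 h2
    obtain ⟨n, hn⟩ := Int.eq_ofNat_of_zero_le (sub_nonneg.2 h1)
    have e := h n (by omega)
    have e1 : s + (n : ℤ) = z := by omega
    have e2 : s' + (n : ℤ) = z - s + s' := by omega
    rw [e1, e2] at e
    exact e
  obtain ⟨q, hq1, hq2⟩ : ∃ q : ℤ, s < q * M K ∧ q * M K ≤ s + M K := by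
    refine ⟨s / M K + 1, ?_, ?_⟩
    · have := Int.emod_add_mul_ediv s (M K)
      have := Int.emod_lt_of_pos s hM
      nlinarith
    · have := Int.emod_add_mul_ediv s (M K)
      have := Int.emod_nonneg s hM.ne'
      nlinarith
  have hj0 := Int.emod_nonneg q hJ.ne'
  have hj1 := Int.emod_lt_of_pos q hJ
  obtain ⟨hx2, hx4⟩ := xx_lt hK p (q % J K) hj0 hj1
  set j := q % J K with hj
  set x := xx p j with hx
  -- the run in the first word
  have r1 : (wd K p (q * M K + (M K - x - 1))).1 ≠ 4 := by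
    rw [wd_at p q _ (by omega) (by omega), ← hj,
      f_three hK p j _ hj0 hj1 (by omega) (Or.inl (by omega))]
    simp
  have r2 : ∀ i : ℤ, 0 ≤ i → i < x → (wd K p (q * M K + (M K - x + i))).1 = 4 := by
    intro i hi0 hi1
    rw [wd_at p q _ (by omega) (by omega), ← hj, f_four hK p j _ hj0 hj1 (by omega)]
  have r3 : (wd K p (q * M K + M K)).1 ≠ 4 := by
    have e : q * M K + M K = (q + 1) * M K + 0 := by ring
    rw [e, wd_at p (q + 1) 0 le_rfl hM]
    exact f_start hK p _ (Int.emod_nonneg _ hJ.ne') (Int.emod_lt_of_pos _ hJ)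
  -- the run in the second word
  set a' : ℤ := q * M K + (M K - x) - s + s' with ha'
  have s1 : (wd K p' (a' - 1)).1 ≠ 4 := by
    have := hh (q * M K + (M K - x - 1)) (by omega) (by omega)
    rw [this] at r1
    have e : q * M K + (M K - x - 1) - s + s' = a' - 1 := by rw [ha']; ring
    rwa [e] at r1
  have s2 : ∀ i : ℤ, 0 ≤ i → i < x → (wd K p' (a' + i)).1 = 4 := by
    intro i hi0 hi1
    have h1 := r2 i hi0 hi1
    have h2 := hh (q * M K + (M K - x + i)) (by omega) (by omega)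
    rw [h2] at h1
    have e : q * M K + (M K - x + i) - s + s' = a' + i := by rw [ha']; ring
    rwa [e] at h1
  have s3 : (wd K p' (a' + x)).1 ≠ 4 := by
    have := hh (q * M K + M K) (by omega) (by omega)
    rw [this] at r3
    have e : q * M K + M K - s + s' = a' + x := by rw [ha']; ring
    rwa [e] at r3
  set q' := a' / M K with hq'
  set r' := a' % M K with hr'
  have ea : a' = q' * M K + r' := by
    have := Int.emod_add_mul_ediv a' (M K)
    rw [hq', hr']; linarith
  have hr0 : 0 ≤ r' := Int.emod_nonneg _ hM.ne'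
  have hr1 : r' < M K := Int.emod_lt_of_pos _ hM
  have hj0' := Int.emod_nonneg q' hJ.ne'
  have hj1' := Int.emod_lt_of_pos q' hJ
  obtain ⟨hx2', hx4'⟩ := xx_lt hK p' (q' % J K) hj0' hj1'
  set j' := q' % J K with hj'
  set x' := xx p' j' with hx'
  have hat : ∀ r : ℤ, 0 ≤ r → r < M K → wd K p' (q' * M K + r) = f K p' j' r := by
    intro r h0 h1
    rw [wd_at p' q' r h0 h1]
  -- `r' = M - x'`
  have k1 : M K - x' ≤ r' := by
    by_contra hcon
    push Not at hcon
    have h4 := s2 0 le_rfl (by omega)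
    have h5 := s2 1 (by omega) (by omega)
    rw [add_zero, ea, hat r' hr0 hr1] at h4
    have e : a' + 1 = q' * M K + (r' + 1) := by rw [ea]; ring
    rw [e, hat (r' + 1) (by omega) (by omega)] at h5
    rcases f_cases (K := K) p' j' r' hr0 with ⟨h6, h7⟩ | ⟨h6, h7⟩ | ⟨h6, h7⟩ | ⟨h6, h7⟩ | h6
    · rw [h6, h7, f_zero] at h4
      simp at h4
    · rw [h6, h7] at h5
      have e2 : (1 : ℤ) + 1 = 2 := by norm_num
      rw [e2, f_two] at h5
      simp at h5
    · rw [h6, h7, f_two] at h4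
      simp at h4
    · rw [f_three hK p' j' r' hj0' hj1' h6 h7] at h4
      simp at h4
    · omega
  have k2 : r' = M K - x' := by
    by_contra hcon
    have e : a' - 1 = q' * M K + (r' - 1) := by rw [ea]; ring
    rw [e, hat (r' - 1) (by omega) (by omega),
      f_four hK p' j' (r' - 1) hj0' hj1' (by omega)] at s1
    exact s1 rfl
  have k3 : x = x' := by
    rcases lt_trichotomy x x' with hlt | heq | hgt
    · exfalso
      have e : a' + x = q' * M K + (r' + x) := by rw [ea]; ring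
      rw [e, hat (r' + x) (by omega) (by omega),
        f_four hK p' j' (r' + x) hj0' hj1' (by omega)] at s3
      exact s3 rfl
    · exact heq
    · exfalso
      have h4 := s2 x' (by omega) hgt
      have e : a' + x' = (q' + 1) * M K + 0 := by rw [ea, k2]; ring
      rw [e, wd_at p' (q' + 1) 0 le_rfl hM] at h4
      exact f_start hK p' _ (Int.emod_nonneg _ hJ.ne') (Int.emod_lt_of_pos _ hJ) h4
  have k4 : cd p = cd p' ∧ j = j' := by
    have := cd_nonneg p
    have := cd_nonneg p'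
    have := cd_lt p
    have := cd_lt p'
    rw [hx, hx'] at k3
    unfold xx at k3
    constructor <;> omega
  refine ⟨cd_inj k4.1, ?_⟩
  have k5 : q % J K = q' % J K := by rw [← hj, ← hj']; exact k4.2
  obtain ⟨m, hm⟩ := Int.ModEq.dvd (show q' ≡ q [ZMOD J K] from k5.symm)
  refine ⟨m, ?_⟩
  have e1 : a' - (q * M K + (M K - x)) = s' - s := by rw [ha']; ring
  have e2 : a' - (q * M K + (M K - x)) = (q' - q) * M K := by rw [ea, k2, k3]; ring
  have e3 : (q' - q) * M K = - (m * Lt K) := by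
    have : q' - q = - (J K * m) := by linarith
    rw [this]; unfold Lt; ring
  linarith

lemma wd_add_mul (hK : 20 ≤ K) (p : Fin 4 × Bool) (k m : ℤ) : wd K p (k + m * Lt K) = wd K p k := by
  have hM : 0 < M K := by unfold M; omega
  unfold wd Lt
  have e : k + m * (J K * M K) = k + (m * J K) * M K := by ring
  rw [e, Int.add_mul_ediv_right _ _ hM.ne', Int.add_mul_emod_self_right, Int.add_mul_emod_self_right]


/-- letters different from `0` have positive sign -/
lemma f_sign (p : Fin 4 × Bool) (j r : ℤ) (h : (f K p j r).1 ≠ 0) : (f K p j r).2 = true := by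
  unfold f at h ⊢
  split_ifs at h ⊢ <;> simp_all

lemma wd_sign (p : Fin 4 × Bool) (k : ℤ) (h : (wd K p k).1 ≠ 0) : (wd K p k).2 = true :=
  f_sign p _ _ h

/-- decomposition of a position -/
lemma pos_eq (hK : 20 ≤ K) (k : ℤ) : ∃ q r : ℤ, k = q * M K + r ∧ 0 ≤ r ∧ r < M K ∧
    0 ≤ q % J K ∧ q % J K < J K := by
  have hM : 0 < M K := by unfold M; omega
  have hJ : 0 < J K := by unfold J; omega
  refine ⟨k / M K, k % M K, ?_, Int.emod_nonneg _ hM.ne', Int.emod_lt_of_pos _ hM,
    Int.emod_nonneg _ hJ.ne', Int.emod_lt_of_pos _ hJ⟩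
  have := Int.emod_add_mul_ediv k (M K)
  linarith

lemma wd_iso (hK : 20 ≤ K) (p : Fin 4 × Bool) (k : ℤ) (h : (wd K p k).1 = (wd K p (k + 1)).1) :
    3 ≤ ((wd K p k).1 : ℕ) := by
  obtain ⟨q, r, hk, h0, h1, hj0, hj1⟩ := pos_eq hK k
  have hx := xx_lt hK p _ hj0 hj1
  have e0 : wd K p k = f K p (q % J K) r := by rw [hk, wd_at p q r h0 h1]
  have e1 : r + 1 < M K → wd K p (k + 1) = f K p (q % J K) (r + 1) := by
    intro h2
    rw [hk, add_assoc, wd_at p q (r + 1) (by omega) h2]
  rcases f_cases (K := K) p (q % J K) r h0 with ⟨h6, h7⟩ | ⟨h6, h7⟩ | ⟨h6, h7⟩ | ⟨h6, h7⟩ | h6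
  · exfalso
    have e2 := e1 (by omega)
    rw [e0, e2, h6, h7, f_zero, zero_add, f_one] at h
    exact (Fin.succ_ne_zero p.1) h.symm
  · exfalso
    have e2 := e1 (by omega)
    rw [e0, e2, h6, h7, f_one, show (1 : ℤ) + 1 = 2 by norm_num, f_two] at h
    exact (Fin.succ_ne_zero p.1) h
  · exfalso
    have e2 := e1 (by omega)
    rw [h6] at hx
    rw [e0, e2, h6, h7, f_two, f_three hK p 0 _ le_rfl (by omega) (by omega) (Or.inl (by omega))] at h
    simp at h
  · rw [e0, f_three hK p _ r hj0 hj1 h6 h7]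
    exact le_rfl
  · rw [e0, f_four hK p _ r hj0 hj1 h6]
    show 3 ≤ 4
    norm_num

lemma wd_red (hK : 20 ≤ K) (p : Fin 4 × Bool) (k : ℤ) : wd K p (k + 1) ≠ inv2 (wd K p k) := by
  intro h
  have h1 : (wd K p k).1 = (wd K p (k + 1)).1 := by rw [h]; rfl
  have h2 := wd_iso hK p k h1
  have h3 : (wd K p k).1 ≠ 0 := by
    intro h4
    rw [h4] at h2
    exact absurd h2 (by norm_num)
  have h4 := wd_sign p k h3
  have h5 := wd_sign p (k + 1) (by rw [← h1]; exact h3)
  rw [h] at h5
  simp [inv2, h4] at h5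

lemma Lt_ge (hK : 20 ≤ K) : K ≤ Lt K ∧ 0 < Lt K := by
  unfold Lt J M
  constructor <;> nlinarith

lemma lab_first (w w' : ℤ → Fin 5 × Bool) (s s' : ℤ) (ε : Bool) (k : ℤ)
    (h : lab w s ε k = lab w' s' ε k) (hε : ε = false) : w (s - k - 1) = w' (s' - k - 1) := by
  subst hε
  exact inv2_injective h

/-- the small cancellation condition -/
lemma wd_sc (hK : 20 ≤ K) (p p' : Fin 4 × Bool) (s s' : ℤ) (ε ε' : Bool) (t : ℕ)
    (h : ∀ k : ℕ, k < t → lab (wd K p) s ε k = lab (wd K p') s' ε' k) (ht : Lt K ≤ K * t) :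
    ∀ k, lab (wd K p) s ε k = lab (wd K p') s' ε' k := by
  have hM : 0 < M K := by unfold M; omega
  have ht' : 4 * M K ≤ t := by
    unfold Lt J at ht
    have : K * (4 * M K) ≤ K * t := by nlinarith
    exact le_of_mul_le_mul_left this (by omega)
  have hMK : M K = 32 * K + 10 := rfl
  -- the orientations agree
  have hε : ε = ε' := by
    by_contra hne
    -- a letter of the second word with index different from `0`
    have key : ∀ k : ℕ, k < t → (lab (wd K p) s ε k).1 = 0 := by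
      intro k hk
      by_contra h0
      have h1 := h k hk
      have h0' : (lab (wd K p') s' ε' k).1 ≠ 0 := by rw [← h1]; exact h0
      cases ε <;> cases ε'
      · exact hne rfl
      · have e1 : (wd K p (s - k - 1)).2 = true := wd_sign p _ h0
        have e2 : (wd K p' (s' + k)).2 = true := wd_sign p' _ h0'
        have e3 : inv2 (wd K p (s - k - 1)) = wd K p' (s' + k) := h1
        rw [← e3] at e2
        simp [inv2, e1] at e2
      · have e1 : (wd K p (s + k)).2 = true := wd_sign p _ h0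
        have e2 : (wd K p' (s' - k - 1)).2 = true := wd_sign p' _ h0'
        have e3 : wd K p (s + k) = inv2 (wd K p' (s' - k - 1)) := h1
        rw [e3] at e1
        simp [inv2, e2] at e1
      · exact hne rfl
    have k0 := key 0 (by omega)
    have k1 := key 1 (by omega)
    cases ε
    · have e0 : (wd K p (s - 1)).1 = 0 := by
        have : (wd K p (s - ((0 : ℕ) : ℤ) - 1)).1 = 0 := k0
        simpa using this
      have e1 : (wd K p (s - 2)).1 = 0 := by
        have : (wd K p (s - ((1 : ℕ) : ℤ) - 1)).1 = 0 := k1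
        have e : s - ((1 : ℕ) : ℤ) - 1 = s - 2 := by push_cast; ring
        rwa [e] at this
      have := wd_iso hK p (s - 2) (by rw [e1, show s - 2 + 1 = s - 1 by ring, e0])
      rw [e1] at this
      exact absurd this (by norm_num)
    · have e0 : (wd K p s).1 = 0 := by
        have : (wd K p (s + ((0 : ℕ) : ℤ))).1 = 0 := k0
        simpa using this
      have e1 : (wd K p (s + 1)).1 = 0 := by
        have : (wd K p (s + ((1 : ℕ) : ℤ))).1 = 0 := k1
        simpa using this
      have := wd_iso hK p s (by rw [e1, e0])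
      rw [e0] at this
      exact absurd this (by norm_num)
  subst hε
  cases ε
  · -- reversed
    have h1 : ∀ k : ℕ, k < t → (wd K p (s - t + k)).1 = (wd K p' (s' - t + k)).1 := by
      intro k hk
      have h2 := lab_first _ _ s s' false ((t - 1 - k : ℕ) : ℤ) (h (t - 1 - k) (by omega)) rfl
      have e1 : s - ((t - 1 - k : ℕ) : ℤ) - 1 = s - t + k := by omega
      have e2 : s' - ((t - 1 - k : ℕ) : ℤ) - 1 = s' - t + k := by omega
      rw [e1, e2] at h2
      rw [h2]
    obtain ⟨hp, m, hm⟩ := window hK p p' _ _ t ht' h1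
    subst hp
    intro k
    show inv2 (wd K p (s - k - 1)) = inv2 (wd K p (s' - k - 1))
    rw [← wd_add_mul hK p (s' - k - 1) m]
    congr 2
    linarith
  · have h1 : ∀ k : ℕ, k < t → (wd K p (s + k)).1 = (wd K p' (s' + k)).1 := by
      intro k hk
      have h2 : wd K p (s + k) = wd K p' (s' + k) := h k hk
      rw [h2]
    obtain ⟨hp, m, hm⟩ := window hK p p' _ _ t ht' h1
    subst hp
    intro k
    show wd K p (s + k) = wd K p (s' + k)
    rw [← wd_add_mul hK p (s' + k) m]
    congr 1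
    linarith

/-- the family of the relators -/
def W (hK : 20 ≤ K) : Words (Fin 5) where
  B := Set.range (fun p : Fin 4 × Bool => (wd K p, Lt K))
  K := K
  hK := hK
  per := by
    rintro _ ⟨p, rfl⟩ k
    have := wd_add_mul hK p k 1
    rw [one_mul] at this
    exact this
  red := by
    rintro _ ⟨p, rfl⟩ k
    exact wd_red hK p k
  KL := by
    rintro _ ⟨p, rfl⟩
    exact (Lt_ge hK).1
  sc := by
    rintro _ ⟨p, rfl⟩ _ ⟨p', rfl⟩ s s' ε ε' t h1 h2
    refine ⟨wd_sc hK p p' s s' ε ε' t h1 ?_, rfl⟩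
    rcases h2 with h2 | h2 <;> exact h2

lemma prim (hK : 20 ≤ K) : (W hK).Prim := by
  rintro _ ⟨p, rfl⟩ m hm0 hm1
  by_contra hcon
  push Not at hcon
  have hL := Lt_ge hK
  simp only at hm1 hcon
  obtain ⟨-, n, hn⟩ := window hK p p m 0 (4 * M K).toNat (by omega) (by
    intro k _
    rw [zero_add, add_comm, hcon])
  rw [zero_add] at hn
  have h1 : 0 < n := by
    by_contra h
    push Not at h
    nlinarith [hL.2]
  nlinarith [hL.2]

/-- the sign of a relator -/
def sp (p : Fin 4 × Bool) : ℤ := if p.2 then 1 else -1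

/-- the exponent sum of `t` along the line -/
def ex (K : ℤ) (p : Fin 4 × Bool) (k : ℤ) : ℤ :=
  if (k / M K) % J K = 0 ∧ (k % M K = 1 ∨ k % M K = 2) then sp p else 0

/-- the exponent of `t` in a letter -/
def lx (a : Fin 5 × Bool) : ℤ := if a.1 = 0 then (if a.2 then 1 else -1) else 0

lemma ft_mk (a : Fin 5 × Bool) : ft (FreeGroup.mk [a]) = Multiplicative.ofAdd (lx a) := by
  obtain ⟨i, e⟩ := a
  unfold ft lx
  rw [FreeGroup.lift_mk]
  cases e <;> by_cases h : i = 0 <;> simp [h, ofAdd_neg]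

lemma ex_at (p : Fin 4 × Bool) (q r : ℤ) (h0 : 0 ≤ r) (h1 : r < M K) :
    ex K p (q * M K + r) = if q % J K = 0 ∧ (r = 1 ∨ r = 2) then sp p else 0 := by
  have hM : 0 < M K := by omega
  unfold ex
  have e1 : (q * M K + r) / M K = q := by
    rw [add_comm, Int.add_mul_ediv_right _ _ hM.ne', Int.ediv_eq_zero_of_lt h0 h1, zero_add]
  have e2 : (q * M K + r) % M K = r := by
    rw [add_comm, Int.add_mul_emod_self_right, Int.emod_eq_of_lt h0 h1]
  rw [e1, e2]

lemma ex_step (hK : 20 ≤ K) (p : Fin 4 × Bool) (k : ℤ) :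
    ex K p (k + 1) = ex K p k + lx (wd K p k) := by
  have hM : 0 < M K := by unfold M; omega
  obtain ⟨q, r, hk, h0, h1, hj0, hj1⟩ := pos_eq hK k
  have hx := xx_lt hK p _ hj0 hj1
  subst hk
  rw [ex_at p q r h0 h1, wd_at p q r h0 h1]
  have e1 : ex K p (q * M K + r + 1) =
      if q % J K = 0 ∧ (r + 1 = 1 ∨ r + 1 = 2) then sp p else 0 := by
    rcases lt_or_ge (r + 1) (M K) with h2 | h2
    · rw [add_assoc, ex_at p q (r + 1) (by omega) h2]
    · have e : q * M K + r + 1 = (q + 1) * M K + 0 := by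
        have : r + 1 = M K := by omega
        linarith
      rw [e, ex_at p (q + 1) 0 le_rfl hM, if_neg (by omega), if_neg (by omega)]
  rw [e1]
  rcases f_cases (K := K) p (q % J K) r h0 with ⟨h6, h7⟩ | ⟨h6, h7⟩ | ⟨h6, h7⟩ | ⟨h6, h7⟩ | h6
  · rw [if_pos (by omega), if_neg (by omega), h6, h7, f_zero]
    simp [lx, sp]
  · rw [if_pos (by omega), if_pos (by omega), h6, h7, f_one]
    simp [lx]
  · rw [if_neg (by omega), if_pos (by omega), h6, h7, f_two]
    cases h : p.2 <;> simp [lx, sp, h]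
  · rw [if_neg (by omega), if_neg (by omega), f_three hK p _ r hj0 hj1 h6 h7]
    simp [lx]
  · rw [if_neg (by omega), if_neg (by omega), f_four hK p _ r hj0 hj1 h6]
    simp [lx]

lemma ft_zw (hK : 20 ≤ K) (p : Fin 4 × Bool) (k : ℤ) :
    ft (zw (wd K p) k) = Multiplicative.ofAdd (ex K p k) := by
  refine zp_uniq (fun k => ft (FreeGroup.mk [wd K p k])) (fun k => ft (zw (wd K p) k))
    (fun k => Multiplicative.ofAdd (ex K p k)) ?_ ?_ ?_ k
  · intro k
    show ft (zw (wd K p) (k + 1)) = ft (zw (wd K p) k) * _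
    rw [zw_succ, map_mul]
  · intro k
    show Multiplicative.ofAdd (ex K p (k + 1)) = Multiplicative.ofAdd (ex K p k) * _
    rw [ft_mk, ← ofAdd_add, ex_step hK]
  · show ft (zw (wd K p) 0) = Multiplicative.ofAdd (ex K p 0)
    rw [zw_zero, map_one]
    have : ex K p 0 = 0 := by
      unfold ex
      rw [if_neg]
      simp
    rw [this]
    rfl

lemma zw_mem (w : ℤ → Fin 5 × Bool) (n : ℕ) (h : ∀ k : ℕ, k < n → (w k).1 ≠ 0 ∧ (w k).2 = true) :
    zw w n ∈ Subgroup.closure {g : F5 | ∃ j : Fin 5, j ≠ 0 ∧ g = FreeGroup.of j} := by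
  induction n with
  | zero => exact one_mem _
  | succ n ih =>
    push_cast
    rw [zw_succ]
    refine mul_mem (ih fun k hk => h k (by omega)) (Subgroup.subset_closure ?_)
    obtain ⟨h1, h2⟩ := h n (by omega)
    refine ⟨(w n).1, h1, ?_⟩
    have : w n = ((w n).1, true) := Prod.ext rfl h2
    rw [this]
    rfl

/-- away from the first three letters the letter `0` does not occur -/
lemma wd_ne (hK : 20 ≤ K) (p : Fin 4 × Bool) (k : ℤ) (h3 : 3 ≤ k) (hL : k < Lt K) :
    (wd K p k).1 ≠ 0 := by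
  obtain ⟨q, r, hk, h0, h1, hj0, hj1⟩ := pos_eq hK k
  have hM : 0 < M K := by unfold M; omega
  have hJ : 0 < J K := by unfold J; omega
  rw [hk, wd_at p q r h0 h1]
  rcases f_cases (K := K) p (q % J K) r h0 with ⟨h6, h7⟩ | ⟨h6, h7⟩ | ⟨h6, h7⟩ | ⟨h6, h7⟩ | h6
  · exfalso
    have hq0 : 0 ≤ q := by
      by_contra h
      push Not at h
      nlinarith
    have hq1 : q < J K := by
      by_contra h
      push Not at h
      unfold Lt at hL
      nlinarith
    rw [Int.emod_eq_of_lt hq0 hq1] at h6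
    rw [h6] at hk
    omega
  · exfalso
    have hq0 : 0 ≤ q := by
      by_contra h
      push Not at h
      nlinarith
    have hq1 : q < J K := by
      by_contra h
      push Not at h
      unfold Lt at hL
      nlinarith
    rw [Int.emod_eq_of_lt hq0 hq1] at h6
    rw [h6] at hk
    omega
  · exfalso
    have hq0 : 0 ≤ q := by
      by_contra h
      push Not at h
      nlinarith
    have hq1 : q < J K := by
      by_contra h
      push Not at h
      unfold Lt at hL
      nlinarith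
    rw [Int.emod_eq_of_lt hq0 hq1] at h6
    rw [h6] at hk
    omega
  · rw [f_three hK p _ r hj0 hj1 h6 h7]
    simp
  · rw [f_four hK p _ r hj0 hj1 h6]
    simp

lemma zw_three (hK : 20 ≤ K) (p : Fin 4 × Bool) :
    zw (wd K p) 3 = FreeGroup.mk [(0, p.2), (p.1.succ, true), (0, !p.2)] := by
  have hM : 4 < M K := by unfold M; omega
  have h := zw_nat (wd K p) 3
  have e0 : wd K p ((0 : ℕ) : ℤ) = (0, p.2) := by
    have := wd_at (K := K) p 0 0 le_rfl (by omega)
    rw [Int.zero_emod, f_zero] at this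
    simpa using this
  have e1 : wd K p ((1 : ℕ) : ℤ) = (p.1.succ, true) := by
    have := wd_at (K := K) p 0 1 (by omega) (by omega)
    rw [Int.zero_emod, f_one] at this
    simpa using this
  have e2 : wd K p ((2 : ℕ) : ℤ) = (0, !p.2) := by
    have := wd_at (K := K) p 0 2 (by omega) (by omega)
    rw [Int.zero_emod, f_two] at this
    simpa using this
  have e3 : (List.range 3).map (fun i : ℕ => wd K p i) =
      [(0, p.2), (p.1.succ, true), (0, !p.2)] := by
    show [wd K p ((0 : ℕ) : ℤ), wd K p ((1 : ℕ) : ℤ), wd K p ((2 : ℕ) : ℤ)] = _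
    rw [e0, e1, e2]
  rw [e3] at h
  exact h

lemma nrm (hK : 20 ≤ K) (p : Fin 4 × Bool) :
    ∃ h ∈ Subgroup.closure {g : F5 | ∃ j : Fin 5, j ≠ 0 ∧ g = FreeGroup.of j},
      (FreeGroup.mk [(0, p.2), (p.1.succ, true), (0, !p.2)] : F5) * h ∈ (W hK).toFam.N := by
  have hL := Lt_ge hK
  have hL3 : 3 ≤ Lt K := by omega
  obtain ⟨n, hn⟩ := Int.eq_ofNat_of_zero_le (show 0 ≤ Lt K - 3 by omega)
  refine ⟨zw (fun i => wd K p (3 + i)) n, zw_mem _ n ?_, ?_⟩
  · intro k hk
    have h1 := wd_ne hK p (3 + k) (by omega) (by omega)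
    exact ⟨h1, wd_sign p _ h1⟩
  · rw [← zw_three hK p, ← zw_add, show (3 : ℤ) + n = Lt K by omega]
    rw [Words.N_eq]
    apply Subgroup.subset_normalClosure
    exact ⟨_, ⟨p, rfl⟩, rfl⟩

end

/-- **Job RN-RB1.** -/
theorem t : S_RB1 := by
  intro K hK
  refine ⟨W hK, rfl, prim hK, Set.finite_range _, Set.range_nonempty _, ?_, ?_, ?_, ?_⟩
  · rintro _ ⟨p, rfl⟩ k h
    exact wd_iso hK p k h
  · rintro _ ⟨p, rfl⟩ _ ⟨p', rfl⟩
    have := (Lt_ge hK).2
    show Lt K ≤ 3 * Lt K
    omega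
  · rintro _ ⟨p, rfl⟩ a a'
    show (Multiplicative.toAdd (ft ((zw (wd K p) a)⁻¹ * zw (wd K p) a'))).natAbs ≤ 1
    rw [map_mul, map_inv, ft_zw hK, ft_zw hK, toAdd_mul, toAdd_inv, toAdd_ofAdd, toAdd_ofAdd]
    have hsp : sp p = 1 ∨ sp p = -1 := by unfold sp; split <;> simp
    unfold ex
    split_ifs <;> omega
  · intro i e hi
    obtain ⟨h, hh, hN⟩ := nrm hK (i.pred hi, e)
    refine ⟨h, hh, ?_⟩
    simpa using hN

end Pool.Agent.Y893.RN
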